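import Pool.Agent.N286.QR.Pat

set_option autoImplicit false

/-! # Patterns of power residue symbols in record gaps -/

namespace Pool.Agent.N286.QR

open Finset Filter
open Pool.Agent.H256R2.SC (ff)
open Pool.Agent.W147.PS (ff_compare ev_pow)
open Pool.Agent.N286.DE (seg seg_card crit_many)

lemma mul_le_pow (l k : ℕ) (hl : 2 ≤ l) : k * l ≤ l ^ k := by
  induction k with
  | zero => simp
  | succ k ih =>
    rcases Nat.eq_zero_or_pos k with h0 | h0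
    · subst h0; simp
    · have h1 : l ≤ l ^ k := by
        calc l = l ^ 1 := (pow_one l).symm
          _ ≤ l ^ k := Nat.pow_le_pow_right (by omega) h0
      calc (k + 1) * l = k * l + l := by ring
        _ ≤ l ^ k + l ^ k := add_le_add ih h1
        _ = l ^ k * 2 := by ring
        _ ≤ l ^ k * l := Nat.mul_le_mul_left _ hl
        _ = l ^ (k + 1) := (pow_succ _ _).symm

/-- the growth conditions -/
lemma ev_qr (δ : ℝ) (hδ : 0 < δ) : ∀ᶠ P : ℝ in atTop,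
    P ^ (δ / 16) + 2 + 4 * (P ^ (1 / 2 : ℝ) + 1) + 2 * P ^ (1 / 2 + 9 * δ / 16) ≤
      P ^ (1 / 2 + 7 * δ / 8) / 8 ∧ 32 ≤ P ^ (δ / 16) := by
  have h1 := ev_pow (δ / 16) (1 / 2 + 7 * δ / 8) (8 * 4) (by linarith)
  have h2 := ev_pow 0 (1 / 2 + 7 * δ / 8) (8 * 4 * 6) (by linarith)
  have h3 := ev_pow (1 / 2) (1 / 2 + 7 * δ / 8) (8 * 4 * 4) (by linarith)
  have h4 := ev_pow (1 / 2 + 9 * δ / 16) (1 / 2 + 7 * δ / 8) (8 * 4 * 2) (by linarith)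
  filter_upwards [h1, h2, h3, h4, eventually_gt_atTop (0 : ℝ),
    (tendsto_rpow_atTop (show (0 : ℝ) < δ / 16 by positivity)).eventually_ge_atTop 32]
    with P h1 h2 h3 h4 hP h5
  rw [Real.rpow_zero] at h2
  refine ⟨?_, h5⟩
  linarith

/-- the error term for one frequency -/
lemma E_le {p : ℕ} [Fact p.Prime] {k : ℕ} (b : Fin k → ZMod p) (χ : MulChar (ZMod p) ℂ)
    (hb : Function.Injective b) (l : ℕ) (hl : l.Prime) (hχ : χ ≠ 1) (hχl : χ ^ l = 1)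
    (c : ℝ) (hc0 : 0 ≤ c) (hc1 : c ≤ 1 / 4) (hk : (l : ℝ) ^ k ≤ (p : ℝ) ^ c) (q : ℕ) (hq1 : 1 ≤ q)
    (hqp : q < p) (a L : ℕ) (hL : L ≤ p) (ρ : ℤ) (e : Fin k → ℕ) (he : ∀ j, e j < l)
    (he0 : e ≠ 0) :
    ‖∑ x ∈ seg a L q ρ, g b e χ (x : ZMod p)‖ ≤
      2 * ((p : ℝ) ^ (1 / 2 : ℝ) + 1) + Real.sqrt (L * (3 * (p : ℝ) ^ (1 / 2 + c))) := by
  have hp := (Fact.out : p.Prime)
  have hp1 : (1 : ℝ) ≤ p := by exact_mod_cast hp.one_lt.le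
  have hp0 : (0 : ℝ) < p := by linarith
  obtain ⟨j₀, hj₀⟩ := Function.ne_iff.1 he0
  have hsum : ∑ j, e j ≤ l ^ k := by
    refine le_trans ?_ (mul_le_pow l k hl.two_le)
    refine (Finset.sum_le_sum fun j _ => (he j).le).trans ?_
    simp
  have hsumR : ((∑ j, e j : ℕ) : ℝ) ≤ (p : ℝ) ^ c := by
    refine le_trans ?_ hk
    exact_mod_cast hsum
  have hs : ∑ j, e j < p := by
    have h1 : ((∑ j, e j : ℕ) : ℝ) < p := by
      refine hsumR.trans_lt ?_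
      calc (p : ℝ) ^ c ≤ (p : ℝ) ^ (1 / 4 : ℝ) := Real.rpow_le_rpow_of_exponent_le hp1 hc1
        _ < (p : ℝ) ^ (1 : ℝ) := Real.rpow_lt_rpow_of_exponent_lt
            (by exact_mod_cast hp.one_lt) (by norm_num)
        _ = p := Real.rpow_one _
    exact_mod_cast h1
  obtain ⟨x₀, n, hnL, hcard, hf⟩ := Pool.Agent.N286.QR.seg_param a L q hq1 ρ
  rw [hf]
  set H : ℕ := ⌈(p : ℝ) ^ (1 / 2 : ℝ)⌉₊ with hH
  have hsq1 : 1 ≤ (p : ℝ) ^ (1 / 2 : ℝ) := Real.one_le_rpow hp1 (by norm_num)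
  have hH1 : (p : ℝ) ^ (1 / 2 : ℝ) ≤ H := Nat.le_ceil _
  have hH2 : (H : ℝ) < (p : ℝ) ^ (1 / 2 : ℝ) + 1 := Nat.ceil_lt_add_one (by positivity)
  have hH0 : 1 ≤ H := by
    have : (1 : ℝ) ≤ H := hsq1.trans hH1
    exact_mod_cast this
  have hHp : H ≤ p := by
    refine Nat.ceil_le.2 ?_
    calc (p : ℝ) ^ (1 / 2 : ℝ) ≤ (p : ℝ) ^ (1 : ℝ) :=
          Real.rpow_le_rpow_of_exponent_le hp1 (by norm_num)
      _ = p := Real.rpow_one _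
  have hqz : (q : ZMod p) ≠ 0 := by
    rw [Ne, ZMod.natCast_eq_zero_iff]
    intro h
    exact absurd (Nat.le_of_dvd (by omega) h) (by omega)
  have h1 := inc b e χ hb l hl he j₀ hj₀ hs hχ hχl q hqz H hH0 hHp x₀ n (hnL.trans hL)
  refine h1.trans ?_
  have hpH : (p : ℝ) / H ≤ (p : ℝ) ^ (1 / 2 : ℝ) := by
    have hHr : (0 : ℝ) < H := by linarith
    rw [div_le_iff₀ hHr]
    have h2 : (p : ℝ) = (p : ℝ) ^ (1 / 2 : ℝ) * (p : ℝ) ^ (1 / 2 : ℝ) := by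
      rw [← Real.rpow_add hp0]; norm_num
    calc (p : ℝ) = (p : ℝ) ^ (1 / 2 : ℝ) * (p : ℝ) ^ (1 / 2 : ℝ) := h2
      _ ≤ _ := mul_le_mul_of_nonneg_left hH1 (by positivity)
  have hsqrt : Real.sqrt p = (p : ℝ) ^ (1 / 2 : ℝ) := Real.sqrt_eq_rpow _
  have hadd : (p : ℝ) ^ (1 / 2 + c) = (p : ℝ) ^ (1 / 2 : ℝ) * (p : ℝ) ^ c := Real.rpow_add hp0 _ _
  have hc1' : 1 ≤ (p : ℝ) ^ c := Real.one_le_rpow hp1 hc0
  have h2 : (p : ℝ) / H + 2 * ((∑ j, e j : ℕ) : ℝ) * Real.sqrt p ≤ 3 * (p : ℝ) ^ (1 / 2 + c) := by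
    rw [hsqrt, hadd]
    have h3 : 2 * ((∑ j, e j : ℕ) : ℝ) * (p : ℝ) ^ (1 / 2 : ℝ) ≤
        2 * (p : ℝ) ^ c * (p : ℝ) ^ (1 / 2 : ℝ) := by
      refine mul_le_mul_of_nonneg_right ?_ (by positivity)
      linarith
    have h4 : (p : ℝ) ^ (1 / 2 : ℝ) * 1 ≤ (p : ℝ) ^ (1 / 2 : ℝ) * (p : ℝ) ^ c :=
      mul_le_mul_of_nonneg_left hc1' (by positivity)
    linarith
  have h3 : Real.sqrt (n * ((p : ℝ) / H + 2 * ((∑ j, e j : ℕ) : ℝ) * Real.sqrt p)) ≤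
      Real.sqrt (L * (3 * (p : ℝ) ^ (1 / 2 + c))) := by
    apply Real.sqrt_le_sqrt
    have hnL' : (n : ℝ) ≤ L := by exact_mod_cast hnL
    exact mul_le_mul hnL' h2 (by positivity) (Nat.cast_nonneg _)
  linarith

/-- the core theorem -/
theorem core (δ : ℝ) (hδ : 0 < δ) (hδ1 : δ ≤ 1) : ∃ κ : ℝ, 0 < κ ∧
    ∀ᶠ P : ℝ in atTop, κ * ff P ≤ (Real.log P) ^ 2 ∧ ∀ p : ℕ, (p : ℝ) = P → p.Prime →
    ∀ l : ℕ, l.Prime → ∀ χ : MulChar (ZMod p) ℂ, χ ≠ 1 → χ ^ l = 1 →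
    ∀ k : ℕ, (l : ℝ) ^ k ≤ P ^ (δ / 16) → ∀ b : Fin k → ZMod p, Function.Injective b →
    ∀ z : Fin k → ℂ, (∀ j, z j ^ l = 1) → ∀ a L : ℕ, L ≤ p → P ^ (1 / 2 + δ) ≤ L →
    ∀ G : Finset ℕ, (∀ x, a ≤ x → x < a + L → (∀ j, χ ((x : ZMod p) + b j) = z j) →
      (∀ m : ℤ, |(m : ℝ) - x| ≤ κ * ff P →
        ∃ q : ℕ, q.Prime ∧ (q : ℝ) ≤ P ^ (δ / 16) ∧ (q : ℤ) ∣ m) → x ∈ G) →
    (L : ℝ) / (l : ℝ) ^ k * P ^ (-(δ / 4)) ≤ G.card := by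
  classical
  set η : ℝ := δ / 32 with hη
  have hη0 : 0 < η := by positivity
  have hη1 : η ≤ 1 := by linarith
  obtain ⟨κ, hκ, X₀, hc⟩ := crit_many 1 le_rfl
  refine ⟨κ * (η / 32), by positivity, ?_⟩
  filter_upwards [ff_compare η hη0 hη1, (tendsto_rpow_atTop hη0).eventually_ge_atTop X₀,
    ev_qr δ hδ, eventually_gt_atTop (1 : ℝ)] with P hff hX hev hP1
  have hP0 : 0 < P := by linarith
  obtain ⟨hlog, hcrit⟩ := hc (P ^ η) hX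
  have hmono : ∀ x y : ℝ, x ≤ y → P ^ x ≤ P ^ y := fun x y h =>
    Real.rpow_le_rpow_of_exponent_le hP1.le h
  have hffP : κ * (η / 32) * ff P ≤ κ * ff (P ^ η) := by
    have h5 := (hff.2 (P ^ η) le_rfl (by
      calc P ^ η ≤ P ^ (2 : ℝ) := hmono _ _ (by linarith)
        _ = P ^ 2 := by norm_num)).1
    calc κ * (η / 32) * ff P = κ * (η / 32 * ff P) := by ring
      _ ≤ _ := mul_le_mul_of_nonneg_left h5 hκ.le
  refine ⟨?_, ?_⟩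
  · have h1 : Real.log (P ^ η) = η * Real.log P := Real.log_rpow hP0 _
    rw [h1] at hlog
    have h2 : 0 ≤ Real.log P := Real.log_nonneg hP1.le
    have h3 : (η * Real.log P) ^ 2 ≤ (Real.log P) ^ 2 := by
      apply pow_le_pow_left₀ (by positivity)
      nlinarith
    linarith
  intro p hpP hp l hl χ hχ hχl k hk b hb z hz a L hLp hL G hG
  subst hpP
  have : Fact p.Prime := ⟨hp⟩
  have hl0 : (0 : ℝ) < l := by exact_mod_cast hl.pos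
  have hl1 : (1 : ℝ) ≤ l := by exact_mod_cast hl.one_lt.le
  have hlk : (1 : ℝ) ≤ (l : ℝ) ^ k := one_le_pow₀ hl1
  set Wt : ℝ := (L : ℝ) / (l : ℝ) ^ k with hWt
  have hL0 : (0 : ℝ) < L := lt_of_lt_of_le (Real.rpow_pos_of_pos hP0 _) hL
  have hWt0 : 0 < Wt := by positivity
  -- the total error
  set Er : ℝ := 2 * ((p : ℝ) ^ (1 / 2 : ℝ) + 1) +
    Real.sqrt (L * (3 * (p : ℝ) ^ (1 / 2 + δ / 16))) with hEr
  have hEr0 : 0 ≤ Er := by positivity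
  have hkr : (k : ℝ) ≤ (p : ℝ) ^ (δ / 16) := by
    refine le_trans ?_ hk
    have h1 := mul_le_pow l k hl.two_le
    have h2 : k ≤ l ^ k := le_trans (Nat.le_mul_of_pos_right k hl.pos) h1
    exact_mod_cast h2
  set E : ℝ := ((p : ℝ) ^ η) ^ (-(2 * ((1 : ℕ) : ℝ))) with hE
  have hE' : E = (p : ℝ) ^ (-(δ / 16)) := by
    rw [hE, ← Real.rpow_mul hP0.le]
    congr 1
    rw [hη]; push_cast; ring
  have hE0 : 0 < E := Real.rpow_pos_of_pos (Real.rpow_pos_of_pos hP0 _) _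
  have hE1 : E ≤ 1 := by
    rw [hE']
    exact Real.rpow_le_one_of_one_le_of_nonpos hP1.le (by linarith)
  have herr : Er + k + 1 ≤ Wt * (E / 8) := by
    -- `Er ≤ 2 √p + 2 + 2 L p^{-δ/2 + δ/32}` in the form needed
    have hWlow : (L : ℝ) * (p : ℝ) ^ (-(δ / 16)) ≤ Wt := by
      rw [hWt, le_div_iff₀ (by positivity), mul_assoc]
      have h1 : (p : ℝ) ^ (-(δ / 16)) * (l : ℝ) ^ k ≤ 1 := by
        calc (p : ℝ) ^ (-(δ / 16)) * (l : ℝ) ^ k ≤ (p : ℝ) ^ (-(δ / 16)) * (p : ℝ) ^ (δ / 16) :=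
              mul_le_mul_of_nonneg_left hk (Real.rpow_nonneg hP0.le _)
          _ = 1 := by rw [← Real.rpow_add hP0]; simp
      calc (L : ℝ) * ((p : ℝ) ^ (-(δ / 16)) * (l : ℝ) ^ k) ≤ L * 1 :=
            mul_le_mul_of_nonneg_left h1 hL0.le
        _ = L := mul_one _
    set r : ℝ := (p : ℝ) ^ (-(1 / 2 + δ)) with hr
    have hr0 : 0 < r := Real.rpow_pos_of_pos hP0 _
    have hLr : 1 ≤ (L : ℝ) * r := by
      calc (1 : ℝ) = (p : ℝ) ^ (1 / 2 + δ) * r := by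
            rw [hr, ← Real.rpow_add hP0]; simp
        _ ≤ L * r := mul_le_mul_of_nonneg_right hL hr0.le
    have hsq : Real.sqrt (L * (3 * (p : ℝ) ^ (1 / 2 + δ / 16))) ≤
        (L * r) * (2 * (p : ℝ) ^ (1 / 2 + 9 * δ / 16)) := by
      apply Real.sqrt_le_iff.2
      refine ⟨by positivity, ?_⟩
      have e1 : ((L * r) * (2 * (p : ℝ) ^ (1 / 2 + 9 * δ / 16))) ^ 2 =
          (L * r) * (L * (4 * (r * ((p : ℝ) ^ (1 / 2 + 9 * δ / 16) *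
            (p : ℝ) ^ (1 / 2 + 9 * δ / 16))))) := by ring
      have e2 : r * ((p : ℝ) ^ (1 / 2 + 9 * δ / 16) * (p : ℝ) ^ (1 / 2 + 9 * δ / 16)) =
          (p : ℝ) ^ (1 / 2 + δ / 8) := by
        rw [hr, ← Real.rpow_add hP0, ← Real.rpow_add hP0]; congr 1; ring
      rw [e1, e2]
      have e3 : (p : ℝ) ^ (1 / 2 + δ / 16) ≤ (p : ℝ) ^ (1 / 2 + δ / 8) := hmono _ _ (by linarith)
      have e4 : 0 < (p : ℝ) ^ (1 / 2 + δ / 8) := Real.rpow_pos_of_pos hP0 _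
      calc (L : ℝ) * (3 * (p : ℝ) ^ (1 / 2 + δ / 16)) ≤ 1 * (L * (4 * (p : ℝ) ^ (1 / 2 + δ / 8))) := by
            rw [one_mul]
            exact mul_le_mul_of_nonneg_left (by linarith) hL0.le
        _ ≤ (L * r) * (L * (4 * (p : ℝ) ^ (1 / 2 + δ / 8))) :=
            mul_le_mul_of_nonneg_right hLr (by positivity)
    have h1 : Er + k + 1 ≤ (L * r) * ((p : ℝ) ^ (δ / 16) + 2 + 4 * ((p : ℝ) ^ (1 / 2 : ℝ) + 1) +
        2 * (p : ℝ) ^ (1 / 2 + 9 * δ / 16)) := by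
      have e1 : 0 ≤ (p : ℝ) ^ (δ / 16) + 2 + 4 * ((p : ℝ) ^ (1 / 2 : ℝ) + 1) := by positivity
      have e2 := mul_le_mul_of_nonneg_right hLr e1
      have e3 : 0 ≤ (p : ℝ) ^ (1 / 2 : ℝ) := by positivity
      have e4 : (L * r) * ((p : ℝ) ^ (δ / 16) + 2 + 4 * ((p : ℝ) ^ (1 / 2 : ℝ) + 1) +
        2 * (p : ℝ) ^ (1 / 2 + 9 * δ / 16)) =
        (L * r) * ((p : ℝ) ^ (δ / 16) + 2 + 4 * ((p : ℝ) ^ (1 / 2 : ℝ) + 1)) +
        (L * r) * (2 * (p : ℝ) ^ (1 / 2 + 9 * δ / 16)) := by ring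
      rw [e4, hEr]
      linarith
    have h2 : (p : ℝ) ^ (δ / 16) + 2 + 4 * ((p : ℝ) ^ (1 / 2 : ℝ) + 1) +
        2 * (p : ℝ) ^ (1 / 2 + 9 * δ / 16) ≤ (p : ℝ) ^ (1 / 2 + 7 * δ / 8) / 8 := hev.1
    have h3 : (L * r) * ((p : ℝ) ^ (1 / 2 + 7 * δ / 8) / 8) = L * (p : ℝ) ^ (-(δ / 16)) *
        ((p : ℝ) ^ (-(δ / 16)) / 8) := by
      have e1 : r * (p : ℝ) ^ (1 / 2 + 7 * δ / 8) = (p : ℝ) ^ (-(δ / 16)) * (p : ℝ) ^ (-(δ / 16)) := by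
        rw [hr, ← Real.rpow_add hP0, ← Real.rpow_add hP0]; congr 1; ring
      calc (L * r) * ((p : ℝ) ^ (1 / 2 + 7 * δ / 8) / 8) =
          L * (r * (p : ℝ) ^ (1 / 2 + 7 * δ / 8)) / 8 := by ring
        _ = _ := by rw [e1]; ring
    calc Er + k + 1 ≤ _ := h1
      _ ≤ (L * r) * ((p : ℝ) ^ (1 / 2 + 7 * δ / 8) / 8) :=
          mul_le_mul_of_nonneg_left h2 (by positivity)
      _ = L * (p : ℝ) ^ (-(δ / 16)) * (E / 8) := by rw [h3, hE']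
      _ ≤ Wt * (E / 8) := mul_le_mul_of_nonneg_right hWlow (by positivity)
  set s : Finset ℕ := (Ico a (a + L)).filter fun x : ℕ => ∀ j, χ ((x : ZMod p) + b j) = z j with hs
  set v : ℕ → Fin 1 → ℤ := fun x _ => (x : ℤ) with hv
  have hfil : ∀ (q : ℕ) (ρ : Fin 1 → ℤ), (s.filter fun x => ∀ j, (q : ℤ) ∣ v x j - ρ j) =
      (seg a L q (ρ 0)).filter fun x : ℕ => ∀ j, χ ((x : ZMod p) + b j) = z j := by
    intro q ρ
    ext x
    unfold seg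
    simp only [hs, hv, mem_filter, Fin.forall_fin_one]
    tauto
  have hcnt : ∀ q : ℕ, 1 ≤ q → (q : ℝ) ≤ (p : ℝ) ^ (δ / 16) → ∀ ρ : Fin 1 → ℤ,
      |(((s.filter fun x => ∀ j, (q : ℤ) ∣ v x j - ρ j).card : ℕ) : ℝ) - Wt / q| ≤
        Wt * (E / 8) := by
    intro q hq hqX ρ
    have hq0 : (0 : ℝ) < q := by exact_mod_cast hq
    have hqp : q < p := by
      have h1 : (q : ℝ) < p := by
        refine hqX.trans_lt ?_
        calc (p : ℝ) ^ (δ / 16) < (p : ℝ) ^ (1 : ℝ) :=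
              Real.rpow_lt_rpow_of_exponent_lt hP1 (by linarith)
          _ = p := Real.rpow_one _
      exact_mod_cast h1
    rw [hfil]
    have h1 := pattern b χ l hl hb hχl z hz a L hLp (seg a L q (ρ 0)) (filter_subset _ _) Er hEr0
      (fun e he he0 => E_le b χ hb l hl hχ hχl (δ / 16) (by positivity) (by linarith) hk q hq hqp a L
        hLp (ρ 0) e he he0)
    have h2 : |((seg a L q (ρ 0)).card : ℝ) / (l : ℝ) ^ k - Wt / q| ≤ 1 := by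
      have e1 : ((seg a L q (ρ 0)).card : ℝ) / (l : ℝ) ^ k - Wt / q =
          (((seg a L q (ρ 0)).card : ℝ) - (L : ℝ) / q) / (l : ℝ) ^ k := by
        rw [hWt]
        field_simp
      rw [e1, abs_div, abs_of_pos (show (0 : ℝ) < (l : ℝ) ^ k by positivity)]
      exact (div_le_self (abs_nonneg _) hlk).trans (seg_card a L q hq (ρ 0))
    refine (abs_sub_le _ _ _).trans ((add_le_add h1 h2).trans ?_)
    linarith
  have hscard : |(s.card : ℝ) - Wt| ≤ Wt * (E / 8) := by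
    have h1 := hcnt 1 le_rfl (by
      push_cast
      exact Real.one_le_rpow hP1.le (by positivity)) (fun _ => 0)
    have h2 : (s.filter fun x => ∀ j, ((1 : ℕ) : ℤ) ∣ v x j - (fun _ => (0 : ℤ)) j) = s := by
      rw [filter_eq_self]
      intro x _ j
      simp
    rw [h2] at h1
    simpa using h1
  have hs1 := abs_le.mp hscard
  have hWE : Wt * (E / 8) ≤ Wt * (1 / 8) := mul_le_mul_of_nonneg_left (by linarith) hWt0.le
  have hsW : Wt / 2 ≤ s.card := by linarith [hs1.1]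
  have hsne : s.Nonempty := by
    rw [← card_pos]
    have : (0 : ℝ) < s.card := by linarith
    exact_mod_cast this
  have hfin := hcrit ℕ s v hsne (by
    intro q hq hqX ρ
    have hq' : (q : ℝ) ≤ (p : ℝ) ^ (δ / 16) := by
      refine hqX.trans ?_
      rw [← Real.rpow_mul hP0.le]
      apply hmono
      rw [hη]
      linarith
    have h1 := hcnt q hq hq' ρ
    have hq1 : (1 : ℝ) ≤ (q : ℝ) := by exact_mod_cast hq
    have h2 : |(s.card : ℝ) / (q : ℝ) - Wt / (q : ℝ)| ≤ Wt * (E / 8) := by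
      rw [← sub_div, abs_div, abs_of_pos (by linarith : (0 : ℝ) < (q : ℝ))]
      exact (div_le_self (abs_nonneg _) hq1).trans hscard
    have h4 : Wt * (E / 8) + Wt * (E / 8) ≤ s.card * E / 2 := by
      have := mul_le_mul_of_nonneg_right hsW hE0.le
      linarith
    rw [abs_sub_comm] at h2
    rw [pow_one]
    exact (abs_sub_le _ _ _).trans ((add_le_add h1 h2).trans h4)) G (by
    intro x hx hgood
    rw [hs, mem_filter, mem_Ico] at hx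
    refine hG x hx.1.1 hx.1.2 hx.2 ?_
    intro m hm
    obtain ⟨q, hq, hqX, hqm⟩ := hgood 0 m (by
      simp only [hv]
      push_cast
      linarith)
    refine ⟨q, hq, hqX.trans ?_, hqm⟩
    rw [← Real.rpow_mul hP0.le]
    apply hmono
    rw [hη]
    linarith)
  refine le_trans ?_ hfin
  have h2 : (p : ℝ) ^ (-(δ / 4)) ≤ E / 16 := by
    have h3 : (p : ℝ) ^ (-(δ / 4)) * (p : ℝ) ^ (3 * δ / 16) = E := by
      rw [hE', ← Real.rpow_add hP0]; congr 1; ring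
    have h4 : 0 < (p : ℝ) ^ (-(δ / 4)) := Real.rpow_pos_of_pos hP0 _
    have h6 : (p : ℝ) ^ (δ / 16) ≤ (p : ℝ) ^ (3 * δ / 16) := hmono _ _ (by linarith)
    have h5 := mul_le_mul_of_nonneg_left (show (16 : ℝ) ≤ (p : ℝ) ^ (3 * δ / 16) by
      linarith [hev.2]) h4.le
    linarith
  calc Wt * (p : ℝ) ^ (-(δ / 4)) ≤ Wt * (E / 16) := mul_le_mul_of_nonneg_left h2 hWt0.le
    _ = Wt / 2 * E / 8 := by ring
    _ ≤ s.card * E / 8 := by gcongr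

/-- the growth conditions for the shrinking -/
lemma ev_qr2 (δ : ℝ) (hδ : 0 < δ) (hδ1 : δ ≤ 1 / 2) : ∀ᶠ P : ℝ in atTop,
    (P ^ (1 / 2 : ℝ) + 1) * 2 ≤ P ^ (1 / 2 + δ) ∧ 2 * P ^ (1 / 2 + δ / 2) ≤ P ^ (1 / 2 + δ) ∧
      2 ≤ P ^ (δ / 2) ∧ (Real.log P) ^ 2 + P ^ (δ / 32) < P ^ (1 / 2 : ℝ) := by
  have h3 : ∀ᶠ P : ℝ in atTop, Real.log P ≤ P ^ (1 / 8 : ℝ) := by
    have h := (isLittleO_log_rpow_atTop (show (0 : ℝ) < 1 / 8 by norm_num)).def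
      (show (0 : ℝ) < 1 by norm_num)
    filter_upwards [h, eventually_ge_atTop (1 : ℝ)] with X hX hX1
    rw [Real.norm_eq_abs, abs_of_nonneg (Real.log_nonneg hX1), Real.norm_eq_abs,
      abs_of_nonneg (Real.rpow_nonneg (by linarith) _)] at hX
    linarith
  filter_upwards [h3, ev_pow (1 / 2) (1 / 2 + δ) 4 (by linarith),
    ev_pow (1 / 2 + δ / 2) (1 / 2 + δ) 2 (by linarith), ev_pow (1 / 4) (1 / 2) 3 (by norm_num),
    (tendsto_rpow_atTop (show (0 : ℝ) < δ / 2 by positivity)).eventually_ge_atTop 2,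
    eventually_ge_atTop (1 : ℝ)] with P h3 h4 h5 h6 h7 hP
  have hP0 : 0 < P := by linarith
  have h1 : 1 ≤ P ^ (1 / 2 : ℝ) := Real.one_le_rpow hP (by norm_num)
  refine ⟨by linarith, h5, h7, ?_⟩
  have h8 : (Real.log P) ^ 2 ≤ (P ^ (1 / 8 : ℝ)) ^ 2 :=
    pow_le_pow_left₀ (Real.log_nonneg hP) h3 2
  have h9 : (P ^ (1 / 8 : ℝ)) ^ 2 = P ^ (1 / 4 : ℝ) := by
    rw [← Real.rpow_natCast, ← Real.rpow_mul hP0.le]; norm_num
  rw [h9] at h8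
  have h10 : P ^ (δ / 32) ≤ P ^ (1 / 4 : ℝ) :=
    Real.rpow_le_rpow_of_exponent_le hP (by linarith)
  have h11 : 0 < P ^ (1 / 4 : ℝ) := by positivity
  linarith

/-- the theorem -/
theorem final (δ : ℝ) (hδ : 0 < δ) (hδ1 : δ ≤ 1 / 2) : ∃ κ : ℝ, 0 < κ ∧ ∃ p₀ : ℕ,
    ∀ p : ℕ, p.Prime → p₀ ≤ p → ∀ l : ℕ, l.Prime → ∀ χ : DirichletCharacter ℂ p, χ ≠ 1 → χ ^ l = 1 →
    ∀ k : ℕ, (l : ℝ) ^ k ≤ (p : ℝ) ^ (δ / 32) → ∀ b : Fin k → ZMod p, Function.Injective b →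
    ∀ z : Fin k → ℂ, (∀ j, z j ^ l = 1) → ∀ a L : ℕ, L ≤ p → (p : ℝ) ^ (1 / 2 + δ) ≤ L →
    (L : ℝ) / (l : ℝ) ^ k * (p : ℝ) ^ (-δ) ≤
      Set.ncard {x : ℕ | a ≤ x ∧ x < a + L ∧ (∀ j, χ ((x : ZMod p) + b j) = z j) ∧
        ∀ m : ℤ, |(m : ℝ) - x| ≤ κ * ff p →
          ∃ q : ℕ, q.Prime ∧ (q : ℝ) ≤ (p : ℝ) ^ δ ∧ (q : ℤ) ∣ m ∧ (q : ℤ) < m} := by
  classical
  obtain ⟨κ, hκ, hc⟩ := core (δ / 2) (by linarith) (by linarith)
  obtain ⟨P₀, hP₀⟩ := eventually_atTop.mp (hc.and (ev_qr2 δ hδ hδ1))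
  refine ⟨κ, hκ, ⌈P₀⌉₊, ?_⟩
  intro p hp hp₀ l hl χ hχ hχl k hk b hb z hz a L hLp hL
  obtain ⟨⟨hff, hmain⟩, g1, g2, g3, g4⟩ := hP₀ p ((Nat.le_ceil _).trans (by exact_mod_cast hp₀))
  have hp1 : (1 : ℝ) ≤ p := by exact_mod_cast hp.one_lt.le
  have hp0 : (0 : ℝ) < p := by linarith
  have hmono : ∀ x y : ℝ, x ≤ y → (p : ℝ) ^ x ≤ (p : ℝ) ^ y := fun x y h =>
    Real.rpow_le_rpow_of_exponent_le hp1 h
  have hlk : (0 : ℝ) < (l : ℝ) ^ k := pow_pos (by exact_mod_cast hl.pos) _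
  set G : Finset ℕ := (Ico a (a + L)).filter fun x : ℕ => (∀ j, χ ((x : ZMod p) + b j) = z j) ∧
        ∀ m : ℤ, |(m : ℝ) - x| ≤ κ * ff p →
          ∃ q : ℕ, q.Prime ∧ (q : ℝ) ≤ (p : ℝ) ^ δ ∧ (q : ℤ) ∣ m ∧ (q : ℤ) < m with hG
  have hset : {x : ℕ | a ≤ x ∧ x < a + L ∧ (∀ j, χ ((x : ZMod p) + b j) = z j) ∧
        ∀ m : ℤ, |(m : ℝ) - x| ≤ κ * ff p →
          ∃ q : ℕ, q.Prime ∧ (q : ℝ) ≤ (p : ℝ) ^ δ ∧ (q : ℤ) ∣ m ∧ (q : ℤ) < m} =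
      (G : Set ℕ) := by
    ext x
    rw [hG, Finset.coe_filter, Set.mem_setOf_eq, Set.mem_setOf_eq, mem_Ico, and_assoc]
  rw [hset, Set.ncard_coe_finset]
  set s₀ : ℕ := ⌈(p : ℝ) ^ (1 / 2 : ℝ)⌉₊ with hs₀
  have hs1 : (p : ℝ) ^ (1 / 2 : ℝ) ≤ s₀ := Nat.le_ceil _
  have hs2 : (s₀ : ℝ) < (p : ℝ) ^ (1 / 2 : ℝ) + 1 := Nat.ceil_lt_add_one (by positivity)
  have hs3 : 2 * (s₀ : ℝ) ≤ L := by linarith
  have hs4 : s₀ ≤ L := by
    have : (s₀ : ℝ) ≤ L := by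
      have : (0 : ℝ) ≤ s₀ := Nat.cast_nonneg _
      linarith
    exact_mod_cast this
  have hL' : (L : ℝ) ≤ 2 * ((L - s₀ : ℕ) : ℝ) := by
    rw [Nat.cast_sub hs4]
    linarith
  have h := hmain p rfl hp l hl χ hχ hχl k (by
      have : δ / 2 / 16 = δ / 32 := by ring
      rw [this]; exact hk) b hb z hz (a + s₀) (L - s₀) (by omega) (by linarith) G (by
    intro x hx1 hx2 hx3 hx4
    rw [hG, mem_filter, mem_Ico]
    refine ⟨⟨by omega, by omega⟩, hx3, ?_⟩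
    intro m hm
    obtain ⟨q, hq, hqX, hqm⟩ := hx4 m hm
    have e1 : δ / 2 / 16 = δ / 32 := by ring
    rw [e1] at hqX
    refine ⟨q, hq, hqX.trans (hmono _ _ (by linarith)), hqm, ?_⟩
    have h1 : (s₀ : ℝ) ≤ x := by
      have : s₀ ≤ x := by omega
      exact_mod_cast this
    have h2 := (abs_le.mp hm).1
    have h3 : (q : ℝ) < m := by linarith
    exact_mod_cast h3)
  refine le_trans ?_ h
  have h5 : (p : ℝ) ^ (-δ) * 2 ≤ (p : ℝ) ^ (-(δ / 2 / 4)) := by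
    have h6 : (p : ℝ) ^ (-δ) * (p : ℝ) ^ (7 * δ / 8) = (p : ℝ) ^ (-(δ / 2 / 4)) := by
      rw [← Real.rpow_add hp0]; congr 1; ring
    rw [← h6]
    refine mul_le_mul_of_nonneg_left ?_ (Real.rpow_nonneg hp0.le _)
    exact g3.trans (hmono _ _ (by linarith))
  calc (L : ℝ) / (l : ℝ) ^ k * (p : ℝ) ^ (-δ)
      ≤ (2 * ((L - s₀ : ℕ) : ℝ)) / (l : ℝ) ^ k * (p : ℝ) ^ (-δ) := by gcongr
    _ = ((L - s₀ : ℕ) : ℝ) / (l : ℝ) ^ k * ((p : ℝ) ^ (-δ) * 2) := by ring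
    _ ≤ _ := mul_le_mul_of_nonneg_left h5 (by positivity)

end Pool.Agent.N286.QR
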