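import Pool.Agent.H435R3.Weil.Main
import Pool.Agent.H471R4.BW.CSL
import Pool.Agent.N286.DE.Box

set_option autoImplicit false

/-! # Incomplete sums of products of shifted characters over progressions -/

namespace Pool.Agent.N286.QR

open Finset Polynomial
open Pool.Agent.H435R3.Weil (weil Cop)
open Pool.Agent.H471R4.BW (csl_rm_prod csl_rm_pow)
open Pool.Agent.N286.DE (seg seg_card)

section

variable {p : ℕ} [Fact p.Prime] {k : ℕ} (b : Fin k → ZMod p) (e : Fin k → ℕ)
  (χ : MulChar (ZMod p) ℂ)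

/-- the product of the shifted characters -/
noncomputable def g (x : ZMod p) : ℂ := ∏ j, χ (x + b j) ^ e j

/-- its polynomial, translated -/
noncomputable def PP (u : ZMod p) : (ZMod p)[X] := ∏ j, (X + C (b j + u)) ^ e j

lemma PP_monic (u : ZMod p) : (PP b e u).Monic :=
  monic_prod_of_monic _ _ fun _ _ => (monic_X_add_C _).pow _

lemma PP_degree (u : ZMod p) : (PP b e u).natDegree ≤ ∑ j, e j := by
  refine (natDegree_prod_le _ _).trans (Finset.sum_le_sum fun j _ => ?_)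
  refine natDegree_pow_le.trans ?_
  rw [natDegree_X_add_C, mul_one]

lemma PP_eval (u x : ZMod p) : χ ((PP b e u).eval x) = g b e χ (x + u) := by
  unfold PP g
  rw [eval_prod, map_prod]
  refine prod_congr rfl fun j _ => ?_
  rw [eval_pow, map_pow, eval_add, eval_X, eval_C]
  congr 2
  ring

/-- the exponent at a point -/
def mu (z : ZMod p) : ℕ := ∑ j, if b j = z then e j else 0

lemma rm_PP (u w : ZMod p) : rootMultiplicity (-w) (PP b e u) = mu b e (w - u) := by
  unfold PP mu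
  rw [csl_rm_prod _ _ _ (fun j _ => ((monic_X_add_C _).pow _).ne_zero)]
  refine sum_congr rfl fun j _ => ?_
  rw [csl_rm_pow _ _ (monic_X_add_C _).ne_zero]
  have h1 : (X + C (b j + u) : (ZMod p)[X]) = X - C (-(b j + u)) := by
    rw [map_neg, sub_neg_eq_add]
  rw [h1, rootMultiplicity_X_sub_C]
  by_cases h : b j = w - u
  · have h2 : -w = -(b j + u) := by rw [h]; ring
    rw [if_pos h, if_pos h2, mul_one]
  · have h2 : ¬ (-w = -(b j + u)) := by
      intro h3
      apply h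
      linear_combination h3
    rw [if_neg h, if_neg h2, mul_zero]

lemma mu_lt (hb : Function.Injective b) (l : ℕ) (hl : 0 < l) (he : ∀ j, e j < l) (z : ZMod p) :
    mu b e z < l := by
  unfold mu
  by_cases h : ∃ j, b j = z
  · obtain ⟨j, hj⟩ := h
    rw [sum_eq_single j]
    · rw [if_pos hj]
      exact he j
    · intro i _ hij
      rw [if_neg]
      intro h1
      exact hij (hb (h1.trans hj.symm))
    · intro h1
      exact absurd (mem_univ _) h1
  · push Not at h
    rw [sum_eq_zero fun j _ => if_neg (h j)]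
    exact hl

lemma mu_ne (j₀ : Fin k) (he : e j₀ ≠ 0) : mu b e (b j₀) ≠ 0 := by
  unfold mu
  have h1 : (if b j₀ = b j₀ then e j₀ else 0) ≤ ∑ j, if b j = b j₀ then e j else 0 :=
    single_le_sum (f := fun j => if b j = b j₀ then e j else 0) (fun _ _ => Nat.zero_le _)
      (mem_univ j₀)
  rw [if_pos rfl] at h1
  omega

lemma sum_mu : ∑ z : ZMod p, mu b e z = ∑ j, e j := by
  unfold mu
  rw [sum_comm]
  refine sum_congr rfl fun j _ => ?_
  rw [sum_ite_eq, if_pos (mem_univ _)]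

lemma exists_mu_ne (j₀ : Fin k) (he : e j₀ ≠ 0) (hs : ∑ j, e j < p) (d : ZMod p) (hd : d ≠ 0) :
    ∃ z, mu b e z ≠ mu b e (z + d) := by
  by_contra hcon
  push Not at hcon
  have h1 : ∀ (n : ℕ) (z : ZMod p), mu b e z = mu b e (z + n * d) := by
    intro n
    induction n with
    | zero => intro z; simp
    | succ n ih =>
      intro z
      rw [ih z, hcon]
      congr 1
      push_cast
      ring
  have h2 : ∀ z, mu b e z = mu b e (b j₀) := by
    intro z
    have h3 := h1 ((z - b j₀) / d).val (b j₀)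
    rw [ZMod.natCast_zmod_val, div_mul_cancel₀ _ hd, add_sub_cancel] at h3
    exact h3.symm
  have h3 := sum_mu b e
  rw [sum_congr rfl fun z _ => h2 z, sum_const, card_univ, ZMod.card, smul_eq_mul] at h3
  have h4 := mu_ne b e j₀ he
  have h5 : p * 1 ≤ p * mu b e (b j₀) := Nat.mul_le_mul_left _ (by omega)
  omega

lemma cop (hb : Function.Injective b) (l : ℕ) (hl : l.Prime) (he : ∀ j, e j < l) (j₀ : Fin k)
    (he₀ : e j₀ ≠ 0) (hs : ∑ j, e j < p) (u u' : ZMod p) (hu : u ≠ u') :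
    Cop l (PP b e u * (PP b e u') ^ (l - 1)) := by
  obtain ⟨z, hz⟩ := exists_mu_ne b e j₀ he₀ hs (u - u') (sub_ne_zero.2 hu)
  refine ⟨-(z + u), ?_⟩
  rw [rootMultiplicity_mul (mul_ne_zero (PP_monic b e u).ne_zero
    (pow_ne_zero _ (PP_monic b e u').ne_zero)), csl_rm_pow _ _ (PP_monic b e u').ne_zero, rm_PP,
    rm_PP]
  have e1 : z + u - u = z := by ring
  have e2 : z + u - u' = z + (u - u') := by ring
  rw [e1, e2]
  have h1 := mu_lt b e hb l hl.pos he z
  have h2 := mu_lt b e hb l hl.pos he (z + (u - u'))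
  set m1 := mu b e z
  set m2 := mu b e (z + (u - u'))
  refine ((Nat.Prime.coprime_iff_not_dvd hl).2 ?_).symm
  intro h3
  have h4 : (l : ℤ) ∣ (m1 : ℤ) - m2 := by
    have h5 : ((m1 + (l - 1) * m2 : ℕ) : ℤ) = (m1 : ℤ) - m2 + l * m2 := by
      push_cast
      rw [Nat.cast_sub hl.one_lt.le]
      push_cast
      ring
    have h6 : (l : ℤ) ∣ ((m1 + (l - 1) * m2 : ℕ) : ℤ) := by exact_mod_cast h3
    rw [h5] at h6
    exact (Int.dvd_add_left (Dvd.intro _ rfl)).1 h6
  have h5 := Int.eq_zero_of_abs_lt_dvd h4 (by rw [abs_lt]; constructor <;> omega)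
  apply hz
  omega

lemma g_norm (x : ZMod p) : ‖g b e χ x‖ ≤ 1 := by
  unfold g
  rw [norm_prod]
  refine Finset.prod_le_one (fun _ _ => norm_nonneg _) fun j _ => ?_
  rw [norm_pow]
  exact pow_le_one₀ (norm_nonneg _) (DirichletCharacter.norm_le_one χ _)

/-- the complete sums -/
lemma complete (hb : Function.Injective b) (l : ℕ) (hl : l.Prime) (he : ∀ j, e j < l)
    (j₀ : Fin k) (he₀ : e j₀ ≠ 0) (hs : ∑ j, e j < p) (hχ : χ ≠ 1) (hχl : χ ^ l = 1)
    (u u' : ZMod p) (hu : u ≠ u') :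
    ‖∑ x : ZMod p, g b e χ (x + u) * (starRingEnd ℂ) (g b e χ (x + u'))‖ ≤
      2 * ((∑ j, e j : ℕ) : ℝ) * Real.sqrt p := by
  have : Fact l.Prime := ⟨hl⟩
  have hord : orderOf χ = l := orderOf_eq_prime hχl hχ
  have hdvd : l ∣ Fintype.card (ZMod p) - 1 := by
    have := MulChar.orderOf_dvd_card_sub_one (F := ZMod p) χ
    rwa [hord] at this
  have h1 := weil l hl.two_le hdvd χ hχ hχl (PP b e u) (PP b e u') (PP_monic b e u)
    (PP_monic b e u') (cop b e hb l hl he j₀ he₀ hs u u' hu)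
  rw [ZMod.card, sum_congr rfl fun x _ => by rw [PP_eval, PP_eval]] at h1
  refine h1.trans (mul_le_mul_of_nonneg_right ?_ (Real.sqrt_nonneg _))
  have h2 : (PP b e u).natDegree + (PP b e u').natDegree ≤ 2 * ∑ j, e j := by
    have := PP_degree b e u
    have := PP_degree b e u'
    omega
  exact_mod_cast h2

/-- the mean square of short sums -/
lemma mean_sq (hb : Function.Injective b) (l : ℕ) (hl : l.Prime) (he : ∀ j, e j < l)
    (j₀ : Fin k) (he₀ : e j₀ ≠ 0) (hs : ∑ j, e j < p) (hχ : χ ≠ 1) (hχl : χ ^ l = 1)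
    (q : ZMod p) (hq : q ≠ 0) (H : ℕ) (hH : H ≤ p) :
    ∑ x : ZMod p, ‖∑ y ∈ range H, g b e χ (x + q * y)‖ ^ 2 ≤
      H * p + (H : ℝ) ^ 2 * (2 * ((∑ j, e j : ℕ) : ℝ) * Real.sqrt p) := by
  classical
  set W : ℝ := 2 * ((∑ j, e j : ℕ) : ℝ) * Real.sqrt p with hW
  have hW0 : 0 ≤ W := by positivity
  have h1 : ((∑ x : ZMod p, ‖∑ y ∈ range H, g b e χ (x + q * y)‖ ^ 2 : ℝ) : ℂ) =
      ∑ y ∈ range H, ∑ y' ∈ range H, ∑ x : ZMod p,
        g b e χ (x + q * y) * (starRingEnd ℂ) (g b e χ (x + q * y')) := by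
    push_cast
    rw [sum_congr rfl fun x _ => by rw [← Complex.mul_conj', map_sum, sum_mul_sum], sum_comm]
    exact sum_congr rfl fun y _ => sum_comm
  have h2 : ∑ x : ZMod p, ‖∑ y ∈ range H, g b e χ (x + q * y)‖ ^ 2 =
      ‖((∑ x : ZMod p, ‖∑ y ∈ range H, g b e χ (x + q * y)‖ ^ 2 : ℝ) : ℂ)‖ := by
    rw [Complex.norm_real, Real.norm_eq_abs, abs_of_nonneg (by positivity)]
  rw [h2, h1]
  have h3 : ∀ y ∈ range H, ∀ y' ∈ range H, ‖∑ x : ZMod p,
      g b e χ (x + q * y) * (starRingEnd ℂ) (g b e χ (x + q * y'))‖ ≤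
      (if y = y' then (p : ℝ) else 0) + W := by
    intro y hy y' hy'
    split_ifs with h
    · refine le_trans ?_ (le_add_of_nonneg_right hW0)
      refine (norm_sum_le _ _).trans ?_
      have h4 : ∀ x ∈ (univ : Finset (ZMod p)),
          ‖g b e χ (x + q * y) * (starRingEnd ℂ) (g b e χ (x + q * y'))‖ ≤ 1 := by
        intro x _
        rw [norm_mul, RCLike.norm_conj]
        exact mul_le_one₀ (g_norm b e χ _) (norm_nonneg _) (g_norm b e χ _)
      refine (Finset.sum_le_sum h4).trans ?_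
      rw [sum_const, card_univ, ZMod.card]
      simp
    · rw [zero_add]
      refine complete b e χ hb l hl he j₀ he₀ hs hχ hχl _ _ ?_
      intro h4
      have h5 := mul_left_cancel₀ hq h4
      apply h
      have h6 := congrArg ZMod.val h5
      rwa [ZMod.val_natCast, ZMod.val_natCast, Nat.mod_eq_of_lt ((mem_range.1 hy).trans_le hH),
        Nat.mod_eq_of_lt ((mem_range.1 hy').trans_le hH)] at h6
  calc ‖∑ y ∈ range H, ∑ y' ∈ range H, ∑ x : ZMod p,
        g b e χ (x + q * y) * (starRingEnd ℂ) (g b e χ (x + q * y'))‖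
      ≤ ∑ y ∈ range H, ∑ y' ∈ range H, ((if y = y' then (p : ℝ) else 0) + W) :=
        (norm_sum_le _ _).trans (Finset.sum_le_sum fun y hy => (norm_sum_le _ _).trans
          (Finset.sum_le_sum fun y' hy' => h3 y hy y' hy'))
    _ = ∑ y ∈ range H, ((p : ℝ) + H * W) := by
        refine sum_congr rfl fun y hy => ?_
        rw [sum_add_distrib, sum_ite_eq, if_pos hy, sum_const, card_range, nsmul_eq_mul]
    _ = H * p + (H : ℝ) ^ 2 * W := by
        rw [sum_const, card_range, nsmul_eq_mul]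
        ring

/-- the shift -/
lemma shift_err (G : ℕ → ℂ) (hG : ∀ i, ‖G i‖ ≤ 1) (n y : ℕ) :
    ‖∑ i ∈ range n, G i - ∑ i ∈ range n, G (i + y)‖ ≤ 2 * y := by
  have h1 : ∑ i ∈ range n, G i + ∑ i ∈ range y, G (n + i) =
      ∑ i ∈ range y, G i + ∑ i ∈ range n, G (y + i) := by
    rw [← sum_range_add, ← sum_range_add, add_comm]
  have h2 : ∑ i ∈ range n, G i - ∑ i ∈ range n, G (i + y) =
      ∑ i ∈ range y, G i - ∑ i ∈ range y, G (n + i) := by
    have h3 : ∑ i ∈ range n, G (i + y) = ∑ i ∈ range n, G (y + i) :=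
      sum_congr rfl fun i _ => by rw [add_comm]
    rw [h3]
    linear_combination h1
  rw [h2]
  refine (norm_sub_le _ _).trans ?_
  have h4 : ∀ f : ℕ → ℂ, (∀ i, ‖f i‖ ≤ 1) → ‖∑ i ∈ range y, f i‖ ≤ y := by
    intro f hf
    refine (norm_sum_le _ _).trans ((Finset.sum_le_sum fun i _ => hf i).trans ?_)
    simp
  have h5 := h4 G hG
  have h6 := h4 (fun i => G (n + i)) (fun i => hG _)
  linarith

/-- incomplete sums over progressions -/
theorem inc (hb : Function.Injective b) (l : ℕ) (hl : l.Prime) (he : ∀ j, e j < l)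
    (j₀ : Fin k) (he₀ : e j₀ ≠ 0) (hs : ∑ j, e j < p) (hχ : χ ≠ 1) (hχl : χ ^ l = 1)
    (q : ℕ) (hq : (q : ZMod p) ≠ 0) (H : ℕ) (hH0 : 1 ≤ H) (hH : H ≤ p) (x₀ n : ℕ) (hn : n ≤ p) :
    ‖∑ i ∈ range n, g b e χ ((x₀ + q * i : ℕ) : ZMod p)‖ ≤
      2 * H + Real.sqrt (n * (p / H + 2 * ((∑ j, e j : ℕ) : ℝ) * Real.sqrt p)) := by
  classical
  set W : ℝ := 2 * ((∑ j, e j : ℕ) : ℝ) * Real.sqrt p with hW
  have hW0 : 0 ≤ W := by positivity
  have hHr : (0 : ℝ) < H := by exact_mod_cast hH0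
  set G : ℕ → ℂ := fun i => g b e χ ((x₀ + q * i : ℕ) : ZMod p) with hG
  have hG1 : ∀ i, ‖G i‖ ≤ 1 := fun i => g_norm b e χ _
  set S := ∑ i ∈ range n, G i with hS
  -- average over the shifts
  have h1 : ‖(H : ℂ) * S - ∑ y ∈ range H, ∑ i ∈ range n, G (i + y)‖ ≤ 2 * (H : ℝ) ^ 2 := by
    have e1 : (H : ℂ) * S - ∑ y ∈ range H, ∑ i ∈ range n, G (i + y) =
        ∑ y ∈ range H, (S - ∑ i ∈ range n, G (i + y)) := by
      rw [sum_sub_distrib, sum_const, card_range, nsmul_eq_mul]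
    rw [e1]
    refine (norm_sum_le _ _).trans ?_
    have e2 : ∀ y ∈ range H, ‖S - ∑ i ∈ range n, G (i + y)‖ ≤ 2 * (H : ℝ) := by
      intro y hy
      refine (shift_err G hG1 n y).trans ?_
      have : (y : ℝ) ≤ H := by exact_mod_cast (mem_range.1 hy).le
      linarith
    refine (Finset.sum_le_sum e2).trans (le_of_eq ?_)
    rw [sum_const, card_range, nsmul_eq_mul]
    ring
  -- Cauchy
  have h2 : ‖∑ y ∈ range H, ∑ i ∈ range n, G (i + y)‖ ≤
      Real.sqrt (n * (H * p + (H : ℝ) ^ 2 * W)) := by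
    rw [sum_comm]
    have e1 : ∀ i ∈ range n, ∑ y ∈ range H, G (i + y) =
        ∑ y ∈ range H, g b e χ (((x₀ + q * i : ℕ) : ZMod p) + (q : ZMod p) * y) := by
      intro i _
      refine sum_congr rfl fun y _ => ?_
      rw [hG]
      simp only
      congr 1
      push_cast
      ring
    rw [sum_congr rfl e1]
    set Tx : ZMod p → ℝ := fun x => ‖∑ y ∈ range H, g b e χ (x + (q : ZMod p) * y)‖ with hTx
    have e2 : ∑ i ∈ range n, Tx ((x₀ + q * i : ℕ) : ZMod p) ^ 2 ≤ H * p + (H : ℝ) ^ 2 * W := by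
      refine le_trans ?_ (mean_sq b e χ hb l hl he j₀ he₀ hs hχ hχl (q : ZMod p) hq H hH)
      have hinj : Set.InjOn (fun i : ℕ => ((x₀ + q * i : ℕ) : ZMod p)) (range n : Finset ℕ) := by
        intro i hi i' hi' h
        have h3 : (i : ZMod p) = (i' : ZMod p) := by
          have h4 : ((x₀ + q * i : ℕ) : ZMod p) = ((x₀ + q * i' : ℕ) : ZMod p) := h
          push_cast at h4
          exact mul_left_cancel₀ hq (add_left_cancel h4)
        have h6 := congrArg ZMod.val h3
        rwa [ZMod.val_natCast, ZMod.val_natCast,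
          Nat.mod_eq_of_lt ((mem_range.1 (mem_coe.1 hi)).trans_le hn),
          Nat.mod_eq_of_lt ((mem_range.1 (mem_coe.1 hi')).trans_le hn)] at h6
      rw [← sum_image (f := fun x => Tx x ^ 2) hinj]
      exact sum_le_sum_of_subset_of_nonneg (subset_univ _) fun x _ _ => by positivity
    have e3 : (∑ i ∈ range n, Tx ((x₀ + q * i : ℕ) : ZMod p)) ^ 2 ≤
        n * ∑ i ∈ range n, Tx ((x₀ + q * i : ℕ) : ZMod p) ^ 2 := by
      have := sq_sum_le_card_mul_sum_sq (s := range n)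
        (f := fun i => Tx ((x₀ + q * i : ℕ) : ZMod p))
      rwa [card_range] at this
    refine (norm_sum_le _ _).trans ?_
    apply Real.le_sqrt_of_sq_le
    refine e3.trans ?_
    exact mul_le_mul_of_nonneg_left e2 (Nat.cast_nonneg _)
  have h3 : (H : ℝ) * ‖S‖ ≤ 2 * (H : ℝ) ^ 2 + Real.sqrt (n * (H * p + (H : ℝ) ^ 2 * W)) := by
    have e1 : (H : ℂ) * S = ((H : ℂ) * S - ∑ y ∈ range H, ∑ i ∈ range n, G (i + y)) +
        ∑ y ∈ range H, ∑ i ∈ range n, G (i + y) := by ring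
    have e2 : (H : ℝ) * ‖S‖ = ‖(H : ℂ) * S‖ := by rw [norm_mul, Complex.norm_natCast]
    rw [e2, e1]
    exact (norm_add_le _ _).trans (add_le_add h1 h2)
  have h4 : Real.sqrt (n * (H * p + (H : ℝ) ^ 2 * W)) = H * Real.sqrt (n * (p / H + W)) := by
    have e1 : (n : ℝ) * (H * p + (H : ℝ) ^ 2 * W) = (H : ℝ) ^ 2 * (n * (p / H + W)) := by
      field_simp
    rw [e1, Real.sqrt_mul (by positivity), Real.sqrt_sq hHr.le]
  rw [h4] at h3
  have h5 : (H : ℝ) * ‖S‖ ≤ H * (2 * H + Real.sqrt (n * (p / H + W))) := by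
    refine h3.trans (le_of_eq ?_)
    ring
  exact le_of_mul_le_mul_left h5 hHr

end

/-- the members of a progression in an interval -/
lemma seg_param (a L q : ℕ) (hq : 1 ≤ q) (ρ : ℤ) : ∃ x₀ n : ℕ, n ≤ L ∧
    (seg a L q ρ).card = n ∧ ∀ f : ℕ → ℂ, ∑ x ∈ seg a L q ρ, f x = ∑ i ∈ range n, f (x₀ + q * i) := by
  classical
  have hqz : (0 : ℤ) < q := by exact_mod_cast hq
  set r : ℕ := ((ρ - a) % q).toNat with hr
  have hr1 : (r : ℤ) = (ρ - a) % q := Int.toNat_of_nonneg (Int.emod_nonneg _ hqz.ne')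
  set x₀ := a + r with hx₀
  set n := (a + L - x₀ + (q - 1)) / q with hn
  have hlt : ∀ i, i < n ↔ q * i < a + L - x₀ := by
    intro i
    rw [hn, Nat.lt_iff_add_one_le, Nat.le_div_iff_mul_le (by omega)]
    have h1 : (i + 1) * q = q * i + q := by ring
    rw [h1]
    omega
  have hseg : seg a L q ρ = (range n).image fun i => x₀ + q * i := by
    ext x
    unfold seg
    rw [mem_filter, mem_Ico, mem_image]
    constructor
    · rintro ⟨⟨h1, h2⟩, h3⟩
      have h4 : (x : ℤ) - a - r = q * ((x - a : ℤ) / q) := by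
        have h5 : ((x : ℤ) - a) % q = (ρ - a) % q := by
          apply Int.ModEq.sub_right a
          exact (Int.modEq_iff_dvd.2 h3).symm
        have h6 := Int.mul_ediv_add_emod ((x : ℤ) - a) q
        rw [h5, ← hr1] at h6
        linarith
      have h7 : 0 ≤ ((x - a : ℤ) / q) := Int.ediv_nonneg (by omega) hqz.le
      obtain ⟨i, hi⟩ := Int.eq_ofNat_of_zero_le h7
      rw [hi] at h4
      have h8 : x = x₀ + q * i := by
        have : (x : ℤ) = ((x₀ + q * i : ℕ) : ℤ) := by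
          rw [hx₀]; push_cast; linarith
        exact_mod_cast this
      refine ⟨i, ?_, h8.symm⟩
      rw [mem_range, hlt]
      omega
    · rintro ⟨i, hi, rfl⟩
      rw [mem_range, hlt] at hi
      refine ⟨⟨by omega, by omega⟩, ?_⟩
      have h1 : ((x₀ + q * i : ℕ) : ℤ) - ρ = q * i - ((ρ - a) - (ρ - a) % q) := by
        rw [hx₀]; push_cast; rw [hr1]; ring
      rw [h1]
      refine dvd_sub (Dvd.intro _ rfl) (Int.dvd_self_sub_emod)
  have hinj : Set.InjOn (fun i => x₀ + q * i) (range n : Finset ℕ) := by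
    intro i _ i' _ h
    have h1 : x₀ + q * i = x₀ + q * i' := h
    have h2 : q * i = q * i' := by omega
    exact Nat.eq_of_mul_eq_mul_left (by omega) h2
  have hcard : (seg a L q ρ).card = n := by
    rw [hseg, card_image_of_injOn hinj, card_range]
  refine ⟨x₀, n, ?_, hcard, fun f => ?_⟩
  · rw [← hcard]
    unfold seg
    refine (card_filter_le _ _).trans ?_
    simp
  · rw [hseg, sum_image hinj]

end Pool.Agent.N286.QR
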