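import Pool.Agent.N286.QR.Inc

set_option autoImplicit false

/-! # Counting patterns of power residue symbols in progressions -/

namespace Pool.Agent.N286.QR

open Finset
open Pool.Agent.N286.DE (seg seg_card)

/-- the indicator of a root of unity -/
lemma ind (l : ℕ) (hl : 1 ≤ l) (w z : ℂ) (hw : w ^ l = 1) (hz : z ^ l = 1) :
    (1 / (l : ℂ)) * ∑ e ∈ range l, (w * (starRingEnd ℂ) z) ^ e = if w = z then 1 else 0 := by
  have hlc : (l : ℂ) ≠ 0 := by exact_mod_cast (by omega : l ≠ 0)
  have hzn : ‖z‖ = 1 := by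
    have h1 : ‖z‖ ^ l = 1 := by rw [← norm_pow, hz, norm_one]
    exact (pow_eq_one_iff_of_nonneg (norm_nonneg _) (by omega)).1 h1
  have hzz : z * (starRingEnd ℂ) z = 1 := by
    rw [Complex.mul_conj', hzn]; norm_num
  have hu : (w * (starRingEnd ℂ) z) ^ l = 1 := by
    rw [mul_pow, hw, one_mul, ← map_pow, hz, map_one]
  split_ifs with h
  · rw [h, hzz]
    simp
    field_simp
  · have h1 : w * (starRingEnd ℂ) z ≠ 1 := by
      intro h2
      apply h
      calc w = w * (z * (starRingEnd ℂ) z) := by rw [hzz, mul_one]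
        _ = (w * (starRingEnd ℂ) z) * z := by ring
        _ = z := by rw [h2, one_mul]
    rw [geom_sum_eq h1, hu, sub_self, zero_div, mul_zero]

section

variable {p : ℕ} [Fact p.Prime] {k : ℕ} (b : Fin k → ZMod p) (χ : MulChar (ZMod p) ℂ)

/-- the factor at a shift -/
noncomputable def fac (l : ℕ) (z w : ℂ) : ℂ :=
  (1 / (l : ℂ)) * ∑ e ∈ range l, (w * (starRingEnd ℂ) z) ^ e

lemma fac_norm (l : ℕ) (z w : ℂ) (hz : ‖z‖ ≤ 1) (hw : ‖w‖ ≤ 1) : ‖fac l z w‖ ≤ 1 := by
  unfold fac
  rcases Nat.eq_zero_or_pos l with h0 | h0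
  · subst h0
    simp
  · have hl : (0 : ℝ) < l := by exact_mod_cast h0
    rw [norm_mul, norm_div, norm_one, Complex.norm_natCast]
    have h1 : ‖∑ e ∈ range l, (w * (starRingEnd ℂ) z) ^ e‖ ≤ l := by
      refine (norm_sum_le _ _).trans ?_
      have h2 : ∀ e ∈ range l, ‖(w * (starRingEnd ℂ) z) ^ e‖ ≤ 1 := by
        intro e _
        rw [norm_pow, norm_mul, RCLike.norm_conj]
        exact pow_le_one₀ (by positivity) (mul_le_one₀ hw (norm_nonneg _) hz)
      refine (Finset.sum_le_sum h2).trans ?_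
      simp
    calc 1 / (l : ℝ) * ‖∑ e ∈ range l, (w * (starRingEnd ℂ) z) ^ e‖ ≤ 1 / (l : ℝ) * l :=
          mul_le_mul_of_nonneg_left h1 (by positivity)
      _ = 1 := by field_simp

/-- the number of the members of a set with a given pattern -/
theorem pattern (l : ℕ) (hl : l.Prime) (hb : Function.Injective b) (hχl : χ ^ l = 1)
    (z : Fin k → ℂ) (hz : ∀ j, z j ^ l = 1) (a L : ℕ) (hL : L ≤ p) (s : Finset ℕ)
    (hs : s ⊆ Ico a (a + L)) (E : ℝ) (hE0 : 0 ≤ E)
    (hE : ∀ e : Fin k → ℕ, (∀ j, e j < l) → e ≠ 0 → ‖∑ x ∈ s, g b e χ (x : ZMod p)‖ ≤ E) :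
    |((s.filter fun x : ℕ => ∀ j, χ ((x : ZMod p) + b j) = z j).card : ℝ) -
      s.card / (l : ℝ) ^ k| ≤ E + k := by
  classical
  have hl0 : (0 : ℝ) < l := by exact_mod_cast hl.pos
  have hlc : (l : ℂ) ≠ 0 := by exact_mod_cast hl.ne_zero
  have hzn : ∀ j, ‖z j‖ = 1 := by
    intro j
    have h1 : ‖z j‖ ^ l = 1 := by rw [← norm_pow, hz, norm_one]
    exact (pow_eq_one_iff_of_nonneg (norm_nonneg _) hl.ne_zero).1 h1
  set Z : ℕ → ℂ := fun x => ∏ j, fac l (z j) (χ ((x : ZMod p) + b j)) with hZ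
  -- the indicator
  have h1 : ∀ x ∈ s, ‖(if ∀ j, χ ((x : ZMod p) + b j) = z j then (1 : ℂ) else 0) - Z x‖ ≤
      if ∃ j, (x : ZMod p) + b j = 0 then 1 else 0 := by
    intro x _
    by_cases h : ∃ j, (x : ZMod p) + b j = 0
    · rw [if_pos h, if_neg]
      · rw [zero_sub, norm_neg, hZ]
        simp only
        rw [norm_prod]
        exact Finset.prod_le_one (fun _ _ => norm_nonneg _) fun j _ =>
          fac_norm l _ _ (hzn j).le (DirichletCharacter.norm_le_one χ _)
      · obtain ⟨j, hj⟩ := h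
        intro h2
        have h3 := h2 j
        rw [hj, MulChar.map_zero] at h3
        have := hzn j
        rw [← h3, norm_zero] at this
        exact zero_ne_one this
    · rw [if_neg h]
      push Not at h
      have h2 : Z x = ∏ j, (if χ ((x : ZMod p) + b j) = z j then (1 : ℂ) else 0) := by
        rw [hZ]
        refine prod_congr rfl fun j _ => ?_
        refine ind l hl.one_lt.le _ _ ?_ (hz j)
        have hu : IsUnit ((x : ZMod p) + b j) := IsUnit.mk0 _ (h j)
        rw [← MulChar.pow_apply' χ hl.ne_zero, hχl, MulChar.one_apply hu]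
      rw [h2, Finset.prod_ite_zero]
      simp
  have h2 : ‖(((s.filter fun x : ℕ => ∀ j, χ ((x : ZMod p) + b j) = z j).card : ℕ) : ℂ) -
      ∑ x ∈ s, Z x‖ ≤ k := by
    rw [card_filter]
    push_cast
    rw [← sum_sub_distrib]
    refine (norm_sum_le _ _).trans ((Finset.sum_le_sum h1).trans ?_)
    rw [← sum_filter, sum_const, nsmul_eq_mul, mul_one]
    have h3 : (s.filter fun x : ℕ => ∃ j, (x : ZMod p) + b j = 0).card ≤
        (univ : Finset (Fin k)).card := by
      refine le_trans ?_ (card_image_le (s := univ) (f := fun j : Fin k => -b j))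
      refine card_le_card_of_injOn (fun x : ℕ => (x : ZMod p)) ?_ ?_
      · intro x hx
        obtain ⟨j, hj⟩ := (mem_filter.1 (mem_coe.1 hx)).2
        rw [mem_coe, mem_image]
        exact ⟨j, mem_univ _, by linear_combination -hj⟩
      · intro x hx y hy hxy
        have e3 : (x : ZMod p) = y := hxy
        rw [ZMod.natCast_eq_natCast_iff] at e3
        have hx' := mem_Ico.1 (hs (mem_filter.1 (mem_coe.1 hx)).1)
        have hy' := mem_Ico.1 (hs (mem_filter.1 (mem_coe.1 hy)).1)
        rcases le_total x y with h5 | h5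
        · have h6 := (Nat.modEq_iff_dvd' h5).1 e3
          have := Nat.eq_zero_of_dvd_of_lt h6 (by omega)
          omega
        · have h6 := (Nat.modEq_iff_dvd' h5).1 e3.symm
          have := Nat.eq_zero_of_dvd_of_lt h6 (by omega)
          omega
    rw [card_univ, Fintype.card_fin] at h3
    exact_mod_cast h3
  -- the expansion
  have h3 : ∑ x ∈ s, Z x = (1 / (l : ℂ)) ^ k * ∑ e ∈ Fintype.piFinset (fun _ : Fin k => range l),
      (∏ j, (starRingEnd ℂ) (z j) ^ e j) * ∑ x ∈ s, g b e χ (x : ZMod p) := by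
    have e1 : ∀ x ∈ s, Z x = (1 / (l : ℂ)) ^ k *
        ∑ e ∈ Fintype.piFinset (fun _ : Fin k => range l),
        (∏ j, (starRingEnd ℂ) (z j) ^ e j) * g b e χ (x : ZMod p) := by
      intro x _
      rw [hZ]
      simp only
      unfold fac
      rw [prod_mul_distrib, prod_const, card_univ, Fintype.card_fin, Finset.prod_univ_sum]
      congr 1
      refine sum_congr rfl fun e _ => ?_
      unfold g
      rw [← prod_mul_distrib]
      refine prod_congr rfl fun j _ => ?_
      rw [mul_pow, mul_comm]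
    rw [sum_congr rfl e1, ← mul_sum, sum_comm]
    congr 1
    exact sum_congr rfl fun e _ => by rw [mul_sum]
  have h0mem : (0 : Fin k → ℕ) ∈ Fintype.piFinset (fun _ : Fin k => range l) := by
    rw [Fintype.mem_piFinset]
    intro i
    exact mem_range.2 (show 0 < l from hl.pos)
  have h4 : (∏ j, (starRingEnd ℂ) (z j) ^ (0 : Fin k → ℕ) j) *
      ∑ x ∈ s, g b (0 : Fin k → ℕ) χ (x : ZMod p) = s.card := by
    unfold g
    simp
  have h5 : ‖∑ x ∈ s, Z x - (s.card : ℂ) / (l : ℂ) ^ k‖ ≤ E := by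
    have e1 : ∑ x ∈ s, Z x - (s.card : ℂ) / (l : ℂ) ^ k = (1 / (l : ℂ)) ^ k *
        ∑ e ∈ (Fintype.piFinset (fun _ : Fin k => range l)).erase 0,
        (∏ j, (starRingEnd ℂ) (z j) ^ e j) * ∑ x ∈ s, g b e χ (x : ZMod p) := by
      rw [h3, ← add_sum_erase _ _ h0mem, h4, mul_add, one_div, inv_pow]
      field_simp
      ring
    rw [e1, norm_mul, norm_pow, norm_div, norm_one, Complex.norm_natCast]
    have e2 : ‖∑ e ∈ (Fintype.piFinset (fun _ : Fin k => range l)).erase 0,
        (∏ j, (starRingEnd ℂ) (z j) ^ e j) * ∑ x ∈ s, g b e χ (x : ZMod p)‖ ≤ (l : ℝ) ^ k * E := by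
      refine (norm_sum_le _ _).trans ?_
      have e3 : ∀ e ∈ (Fintype.piFinset (fun _ : Fin k => range l)).erase 0,
          ‖(∏ j, (starRingEnd ℂ) (z j) ^ e j) * ∑ x ∈ s, g b e χ (x : ZMod p)‖ ≤ E := by
        intro e he
        have he0 := ne_of_mem_erase he
        have hel : ∀ j, e j < l := fun j =>
          mem_range.1 (Fintype.mem_piFinset.1 (mem_of_mem_erase he) j)
        rw [norm_mul, norm_prod]
        have e4 : ∏ j, ‖(starRingEnd ℂ) (z j) ^ e j‖ = 1 := by
          refine prod_eq_one fun j _ => ?_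
          rw [norm_pow, RCLike.norm_conj, hzn, one_pow]
        rw [e4, one_mul]
        exact hE e hel he0
      refine (Finset.sum_le_sum e3).trans ?_
      rw [sum_const, nsmul_eq_mul]
      refine mul_le_mul_of_nonneg_right ?_ hE0
      have e5 : ((Fintype.piFinset (fun _ : Fin k => range l)).erase 0).card ≤ l ^ k := by
        refine (card_le_card (erase_subset _ _)).trans ?_
        rw [Fintype.card_piFinset]
        simp
      exact_mod_cast e5
    calc (1 / (l : ℝ)) ^ k * ‖∑ e ∈ (Fintype.piFinset (fun _ : Fin k => range l)).erase 0,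
        (∏ j, (starRingEnd ℂ) (z j) ^ e j) * ∑ x ∈ s, g b e χ (x : ZMod p)‖
        ≤ (1 / (l : ℝ)) ^ k * ((l : ℝ) ^ k * E) := mul_le_mul_of_nonneg_left e2 (by positivity)
      _ = E := by
        rw [one_div, inv_pow]
        field_simp
  have h6 : ((((s.filter fun x : ℕ => ∀ j, χ ((x : ZMod p) + b j) = z j).card : ℝ) -
      s.card / (l : ℝ) ^ k : ℝ) : ℂ) =
      ((((s.filter fun x : ℕ => ∀ j, χ ((x : ZMod p) + b j) = z j).card : ℕ) : ℂ) -
        ∑ x ∈ s, Z x) + (∑ x ∈ s, Z x - (s.card : ℂ) / (l : ℂ) ^ k) := by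
    push_cast
    ring
  rw [← Real.norm_eq_abs, ← Complex.norm_real, h6]
  refine (norm_add_le _ _).trans ?_
  linarith

end

end Pool.Agent.N286.QR
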